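import Mathlib

namespace Pool.Agent.Results.MP_8a6e71_co.NoDisjointPair

/-- A configuration. -/
abbrev Conf (n : ℕ) : Type := Fin n → Bool

/-- A signed digraph on `Fin n`: `pos j i` (`neg j i`) means that there is a positive (negative)
arc from `j` to `i`. -/
structure SignedDigraph (n : ℕ) where
  /-- positive arcs -/
  pos : Fin n → Fin n → Prop
  /-- negative arcs -/
  neg : Fin n → Fin n → Prop

/-- The signed interaction graph of a Boolean network. -/
def interaction {n : ℕ} (f : Conf n → Conf n) : SignedDigraph n where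
  pos j i := ∃ x y : Conf n, (∀ k, k ≠ j → x k = y k) ∧ x j = false ∧ y j = true ∧
    f x i = false ∧ f y i = true
  neg j i := ∃ x y : Conf n, (∀ k, k ≠ j → x k = y k) ∧ x j = false ∧ y j = true ∧
    f x i = true ∧ f y i = false

/-- The arcs of the asynchronous graph: `y` arises from `x` by flipping one coordinate `i`
with `x i ≠ f x i`. -/
def Async {n : ℕ} (f : Conf n → Conf n) (x y : Conf n) : Prop :=
  ∃ i, x i ≠ f x i ∧ y = Function.update x i (!(x i))

/-- A trap set. -/
def IsTrap {n : ℕ} (f : Conf n → Conf n) (X : Set (Conf n)) : Prop :=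
  ∀ x ∈ X, ∀ y, Async f x y → y ∈ X

/-- An attractor: an inclusion-minimal nonempty trap set. -/
def IsAttractor {n : ℕ} (f : Conf n → Conf n) (A : Set (Conf n)) : Prop :=
  A.Nonempty ∧ IsTrap f A ∧ ∀ X : Set (Conf n), X.Nonempty → IsTrap f X → X ⊆ A → X = A

/-- A subspace: the coordinates in `I` are fixed. -/
def IsSubspace {n : ℕ} (S : Set (Conf n)) : Prop :=
  ∃ (I : Set (Fin n)) (c : Fin n → Bool), S = {x | ∀ i ∈ I, x i = c i}

/-- The smallest subspace containing `X` (the intersection of all of them). -/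
def hull {n : ℕ} (X : Set (Conf n)) : Set (Conf n) :=
  {x | ∀ S, IsSubspace S → X ⊆ S → x ∈ S}

/-- The asynchronous graph is separating. -/
def Separating {n : ℕ} (f : Conf n → Conf n) : Prop :=
  ∀ A B, IsAttractor f A → IsAttractor f B → A ≠ B → hull A ∩ hull B = ∅

/-- A signed digraph is non-separating if it is the interaction graph of a network whose
asynchronous graph is non-separating. -/
def NonSeparating {n : ℕ} (G : SignedDigraph n) : Prop :=
  ∃ f : Conf n → Conf n, G = interaction f ∧ ¬ Separating f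

/-- A cycle of length `k + 1`: distinct vertices `c t` and signs `s t` (`true` for negative) such
that there is an arc of sign `s t` from `c t` to `c (t + 1)` (indices modulo `k + 1`). -/
def IsCycle {n : ℕ} (G : SignedDigraph n) {k : ℕ} (c : Fin (k + 1) → Fin n)
    (s : Fin (k + 1) → Bool) : Prop :=
  Function.Injective c ∧
    ∀ t, (s t = false → G.pos (c t) (c (t + 1))) ∧ (s t = true → G.neg (c t) (c (t + 1)))

/-- The number of negative arcs of a cycle is even. -/
def IsPositive {k : ℕ} (s : Fin (k + 1) → Bool) : Prop :=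
  Even (Finset.univ.filter (fun t => s t = true)).card

/-- Not all equal. -/
def nae (a b c : Bool) : Bool := (a || b || c) && !(a && b && c)

/-- The network. -/
def f (x : Conf 5) : Conf 5 :=
  ![xor (x 2) (x 4), nae (x 0) (x 3) (x 4), xor (x 1) (x 4), xor (x 0) (x 2),
    nae (x 1) (x 2) (x 3)]

/-- The arcs of the interaction graph of `f`. -/
def E : Fin 5 → Fin 5 → Bool := ![
  ![false, true, false, true, false],
  ![false, false, true, false, true],
  ![true, false, false, true, true],
  ![false, true, false, false, true],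
  ![true, true, true, false, false]]

lemma dep (j i : Fin 5) (h : E j i = false) (x y : Conf 5) (hxy : ∀ k, k ≠ j → x k = y k) :
    f x i = f y i := by
  have h0 : j ≠ 0 → x 0 = y 0 := fun h => hxy 0 h.symm
  have h1 : j ≠ 1 → x 1 = y 1 := fun h => hxy 1 h.symm
  have h2 : j ≠ 2 → x 2 = y 2 := fun h => hxy 2 h.symm
  have h3 : j ≠ 3 → x 3 = y 3 := fun h => hxy 3 h.symm
  have h4 : j ≠ 4 → x 4 = y 4 := fun h => hxy 4 h.symm
  fin_cases j <;> fin_cases i <;> simp [E] at h <;> simp at h0 h1 h2 h3 h4 <;>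
    simp [f, h0, h1, h2, h3, h4]

lemma arc_E {j i : Fin 5} (h : (interaction f).pos j i ∨ (interaction f).neg j i) :
    E j i = true := by
  by_contra hE
  have hE' : E j i = false := by simpa using hE
  rcases h with ⟨x, y, hxy, _, _, h1, h2⟩ | ⟨x, y, hxy, _, _, h1, h2⟩
  · have := dep j i hE' x y hxy
    rw [h1, h2] at this
    exact absurd this (by decide)
  · have := dep j i hE' x y hxy
    rw [h1, h2] at this
    exact absurd this (by decide)

lemma no_two : ∀ S T : Finset (Fin 5), S.Nonempty → T.Nonempty → Disjoint S T →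
    (∀ v ∈ S, ∃ w ∈ S, E v w = true) → (∀ v ∈ T, ∃ w ∈ T, E v w = true) → False := by
  decide

/-- The configuration with code `a`. -/
def dec (a : Fin 32) : Conf 5 := fun i => a.val.testBit i.val

lemma dec_surj (x : Conf 5) : ∃ a, dec a = x := by
  revert x; decide

/-- The codes of the large attractor. -/
def As : List (Fin 32) := [7, 14, 15, 18, 19, 20, 21, 22, 23, 25, 26, 27, 28, 29, 30]

/-- A closed walk through the large attractor. -/
def wk : Fin 16 → Fin 32 := ![19, 27, 25, 29, 21, 20, 28, 30, 14, 15, 7, 23, 22, 30, 26, 18]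

lemma walk_step : ∀ t : Fin 16, ∃ i, dec (wk t) i ≠ f (dec (wk t)) i ∧
    dec (wk (t + 1)) = Function.update (dec (wk t)) i (!(dec (wk t) i)) := by
  decide

lemma walk_cover : ∀ a ∈ As, ∃ t, wk t = a := by decide

lemma walk_in : ∀ t, wk t ∈ As := by decide

lemma trap_A : ∀ a ∈ As, ∀ i, dec a i ≠ f (dec a) i →
    ∃ b ∈ As, Function.update (dec a) i (!(dec a i)) = dec b := by
  decide

/-- The large attractor. -/
def A : Set (Conf 5) := {x | ∃ a ∈ As, dec a = x}

/-- The fixed point. -/
def B : Set (Conf 5) := {dec 0}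

lemma A_attractor : IsAttractor f A := by
  refine ⟨⟨dec 7, 7, by decide, rfl⟩, ?_, ?_⟩
  · rintro x ⟨a, ha, rfl⟩ y ⟨i, hi, rfl⟩
    obtain ⟨b, hb, h⟩ := trap_A a ha i hi
    exact ⟨b, hb, h.symm⟩
  · intro X hX hT hXA
    apply Set.Subset.antisymm hXA
    obtain ⟨x, hx⟩ := hX
    obtain ⟨a, ha, rfl⟩ := hXA hx
    obtain ⟨t, rfl⟩ := walk_cover a ha
    have step : ∀ s : Fin 16, dec (wk s) ∈ X → dec (wk (s + 1)) ∈ X :=
      fun s hs => hT _ hs _ (walk_step s)
    have all : ∀ m : ℕ, ∀ s : Fin 16, s.val = m % 16 → dec (wk (t + s)) ∈ X := by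
      intro m
      induction m with
      | zero =>
        intro s hs
        have : s = 0 := Fin.ext (by simpa using hs)
        rw [this, add_zero]
        exact hx
      | succ m ih =>
        intro s hs
        have h1 := ih ⟨m % 16, Nat.mod_lt _ (by norm_num)⟩ rfl
        have h2 := step _ h1
        have h3 : t + (⟨m % 16, Nat.mod_lt _ (by norm_num)⟩ : Fin 16) + 1 = t + s := by
          apply Fin.ext
          simp only [Fin.val_add, hs]
          have : ((1 : Fin 16) : ℕ) = 1 := rfl
          rw [this]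
          omega
        rwa [h3] at h2
    rintro y ⟨b, hb, rfl⟩
    obtain ⟨u, rfl⟩ := walk_cover b hb
    have := all (u - t).val (u - t) (by omega)
    rwa [add_sub_cancel] at this

lemma B_attractor : IsAttractor f B := by
  refine ⟨⟨dec 0, rfl⟩, ?_, ?_⟩
  · rintro x rfl y ⟨i, hi, -⟩
    exact absurd (by revert i; decide) hi
  · intro X hX _ hXB
    apply Set.Subset.antisymm hXB
    obtain ⟨x, hx⟩ := hX
    have := hXB hx
    rintro y rfl
    rw [← show x = dec 0 from this]
    exact hx

lemma both : ∀ i : Fin 5, ∃ a ∈ As, dec a i = false := by decide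

lemma zero_dec : ∀ i : Fin 5, dec 0 i = false := by decide

lemma zero_hull_A : dec 0 ∈ hull A := by
  rintro S ⟨I, c, rfl⟩ hA i hi
  obtain ⟨a, ha, h⟩ := both i
  have h1 : dec a i = c i := hA ⟨a, ha, rfl⟩ i hi
  rw [← h1, h]
  exact zero_dec i

lemma nonsep : ¬ Separating f := by
  intro h
  have hne : A ≠ B := by
    intro h1
    have h2 : dec 7 ∈ B := h1 ▸ ⟨7, by decide, rfl⟩
    exact absurd (show dec 7 = dec 0 from h2) (by decide)
  have h1 := h A B A_attractor B_attractor hne
  have h2 : dec 0 ∈ hull A ∩ hull B := ⟨zero_hull_A, fun S _ hS => hS rfl⟩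
  rw [h1] at h2
  exact h2

/-- Q1 is false: some non-separating signed digraph (on five vertices) has no positive cycle and
negative cycle that are vertex-disjoint. -/
theorem result : ∃ (n : ℕ) (G : SignedDigraph n), NonSeparating G ∧
    ¬ ∃ (k l : ℕ) (c : Fin (k + 1) → Fin n) (s : Fin (k + 1) → Bool)
      (d : Fin (l + 1) → Fin n) (r : Fin (l + 1) → Bool),
      IsCycle G c s ∧ IsPositive s ∧ IsCycle G d r ∧ ¬ IsPositive r ∧
        ∀ t u, c t ≠ d u := by
  classical
  refine ⟨5, interaction f, ⟨f, rfl, nonsep⟩, ?_⟩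
  rintro ⟨k, l, c, s, d, r, ⟨_, hc⟩, -, ⟨_, hd⟩, -, hdisj⟩
  refine no_two (Finset.univ.image c) (Finset.univ.image d) (by simp) (by simp) ?_ ?_ ?_
  · rw [Finset.disjoint_left]
    intro v hv hv'
    obtain ⟨t, -, rfl⟩ := Finset.mem_image.1 hv
    obtain ⟨u, -, hu⟩ := Finset.mem_image.1 hv'
    exact hdisj t u hu.symm
  · intro v hv
    obtain ⟨t, -, rfl⟩ := Finset.mem_image.1 hv
    refine ⟨c (t + 1), Finset.mem_image_of_mem _ (Finset.mem_univ _), arc_E ?_⟩
    cases h : s t
    · exact Or.inl ((hc t).1 h)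
    · exact Or.inr ((hc t).2 h)
  · intro v hv
    obtain ⟨t, -, rfl⟩ := Finset.mem_image.1 hv
    refine ⟨d (t + 1), Finset.mem_image_of_mem _ (Finset.mem_univ _), arc_E ?_⟩
    cases h : r t
    · exact Or.inl ((hd t).1 h)
    · exact Or.inr ((hd t).2 h)

end Pool.Agent.Results.MP_8a6e71_co.NoDisjointPair
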